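import Pool.Agent.K4H13.CV.Path
import Pool.Agent.K4H13.CV.Cusp1
import Pool.Agent.K4H13.CV.Bd
import Pool.Agent.L5helper40.AF.M1

/-!
# The boundary values of the primitives at all rational numbers
-/

set_option autoImplicit false

open Complex Filter Topology Set UpperHalfPlane MatrixGroups CongruenceSubgroup

namespace Pool.Agent.L5helper21.MS

open Pool.Agent.TH940 (prim prim_deriv Fr prim_fricke)
open Pool.Agent.Y18.BSD
open Pool.Agent.K4H13.CV Pool.Agent.K4H13.CV.PathP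
open Pool.Agent.L5helper40.AF
open W388.LV (SF bf pet IsNewBasis)

variable {N : ℕ} [NeZero N]

/-- the boundary value of the primitive at a rational number -/
noncomputable def ms (f : Cf2 N) (r : ℚ) : ℂ :=
  limUnder (𝓝[>] (0 : ℝ)) (fun y : ℝ => prim f ((r : ℂ) + (y : ℂ) * Complex.I))

/-- the action on the vertical line over `- d / c` -/
lemma act_line (g : SL(2, ℤ)) (hc : g 1 0 ≠ 0) (y : ℝ) (hy : 0 < y) :
    ((g • pt (-((g 1 1 : ℤ) : ℝ) / ((g 1 0 : ℤ) : ℝ)) (1 / (((g 1 0 : ℤ) : ℝ) ^ 2 * y)) : ℍ) : ℂ) =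
      ((((g 0 0 : ℤ) : ℚ) / ((g 1 0 : ℤ) : ℚ) : ℚ) : ℂ) + (y : ℂ) * Complex.I := by
  set a : ℤ := g 0 0 with ha
  set b : ℤ := g 0 1 with hb
  set c : ℤ := g 1 0 with hc'
  set d : ℤ := g 1 1 with hd
  have hdet : a * d - b * c = 1 := by
    have h1 := Matrix.SpecialLinearGroup.det_coe g
    rw [Matrix.det_fin_two] at h1
    exact h1
  have hcR : (c : ℝ) ≠ 0 := by exact_mod_cast hc
  have hcC : (c : ℂ) ≠ 0 := by exact_mod_cast hc
  have hyC : (y : ℂ) ≠ 0 := by exact_mod_cast hy.ne'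
  have hdC : (a : ℂ) * d - b * c = 1 := by exact_mod_cast hdet
  have hT : 0 < 1 / ((c : ℝ) ^ 2 * y) := by positivity
  rw [ModularGroup.sl_moeb, coe_smul_of_det_pos (by simp) _, ModularGroup.denom_apply]
  have hnum : num (g : GL (Fin 2) ℝ) (pt (-(d : ℝ) / c) (1 / ((c : ℝ) ^ 2 * y))) =
      (a : ℂ) * (pt (-(d : ℝ) / c) (1 / ((c : ℝ) ^ 2 * y)) : ℍ) + b := by
    rfl
  rw [hnum, pt_coe hT]
  have hden : ((c : ℂ) * (((-(d : ℝ) / c : ℝ) : ℂ) + ((1 / ((c : ℝ) ^ 2 * y) : ℝ) : ℂ) * Complex.I) + d) =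
      Complex.I / (c * y) := by
    push_cast
    field_simp
    ring
  have hI : Complex.I * Complex.I = -1 := Complex.I_mul_I
  show ((a : ℂ) * (((-(d : ℝ) / c : ℝ) : ℂ) + ((1 / ((c : ℝ) ^ 2 * y) : ℝ) : ℂ) * Complex.I) + b) /
    ((c : ℂ) * (((-(d : ℝ) / c : ℝ) : ℂ) + ((1 / ((c : ℝ) ^ 2 * y) : ℝ) : ℂ) * Complex.I) + d) = _
  rw [hden, div_eq_iff (div_ne_zero Complex.I_ne_zero (mul_ne_zero hcC hyC))]
  push_cast
  field_simp
  linear_combination (-(c : ℂ) * y) * hdC - (c : ℂ) * y * hI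

/-- the value at `g ∞` is the limit on the vertical line over the rational number `g ∞` -/
lemma HasV.tendsto {f : Cf2 N} {g : SL(2, ℤ)} {v : ℂ} (h : HasV f g v) (hc : g 1 0 ≠ 0) :
    Tendsto (fun y : ℝ => prim f (((((g 0 0 : ℤ) : ℚ) / ((g 1 0 : ℤ) : ℚ) : ℚ) : ℂ) +
      (y : ℂ) * Complex.I)) (𝓝[>] 0) (𝓝 v) := by
  have hcR : ((g 1 0 : ℤ) : ℝ) ≠ 0 := by exact_mod_cast hc
  have h1 := h (-((g 1 1 : ℤ) : ℝ) / ((g 1 0 : ℤ) : ℝ))
  have hT : Tendsto (fun y : ℝ => 1 / (((g 1 0 : ℤ) : ℝ) ^ 2 * y)) (𝓝[>] 0) atTop := by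
    have h2 : Tendsto (fun y : ℝ => (((g 1 0 : ℤ) : ℝ) ^ 2)⁻¹ * y⁻¹) (𝓝[>] 0) atTop :=
      (tendsto_inv_nhdsGT_zero).const_mul_atTop (by positivity)
    refine h2.congr fun y => ?_
    rw [one_div, mul_inv]
  refine (h1.comp hT).congr' ?_
  filter_upwards [self_mem_nhdsWithin] with y (hy : 0 < y)
  simp only [Function.comp_apply]
  rw [act_line g hc y hy]

lemma ms_of_tendsto {f : Cf2 N} {r : ℚ} {v : ℂ}
    (h : Tendsto (fun y : ℝ => prim f ((r : ℂ) + (y : ℂ) * Complex.I)) (𝓝[>] 0) (𝓝 v)) :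
    ms f r = v := h.limUnder_eq

/-- a matrix with the first column `(num, den)` -/
lemma exists_g (r : ℚ) : ∃ g : SL(2, ℤ), g 0 0 = r.num ∧ g 1 0 = (r.den : ℤ) := by
  have h1 : IsCoprime r.num (r.den : ℤ) := by
    rw [Int.isCoprime_iff_gcd_eq_one]
    exact r.reduced
  obtain ⟨u, v, huv⟩ := h1
  refine ⟨⟨!![r.num, -v; (r.den : ℤ), u], ?_⟩, rfl, rfl⟩
  rw [Matrix.det_fin_two_of]
  linarith

/-- the limits exist, and they are the values at the cusps -/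
lemma ms_spec (hN : N.Prime) {f : Cf2 N} {ε : ℝ} (hf : W388.IsNewf N 2 f ε) (r : ℚ) (g : SL(2, ℤ))
    (h0 : g 0 0 = r.num) (h1 : g 1 0 = (r.den : ℤ)) :
    Tendsto (fun y : ℝ => prim f ((r : ℂ) + (y : ℂ) * Complex.I)) (𝓝[>] 0) (𝓝 (ms f r)) ∧
      ms f r = CC f g := by
  obtain ⟨v, hv⟩ := exists_HasV hN hf g
  have hc : g 1 0 ≠ 0 := by
    rw [h1]
    exact_mod_cast r.den_nz
  have h2 := HasV.tendsto hv hc
  have e1 : (((g 0 0 : ℤ) : ℚ) / ((g 1 0 : ℤ) : ℚ) : ℚ) = r := by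
    rw [h0, h1, Int.cast_natCast]
    exact Rat.num_div_den r
  rw [e1] at h2
  rw [ms_of_tendsto h2, hv.CC_eq]
  exact ⟨h2, rfl⟩

lemma ms_tendsto (hN : N.Prime) {f : Cf2 N} {ε : ℝ} (hf : W388.IsNewf N 2 f ε) (r : ℚ) :
    Tendsto (fun y : ℝ => prim f ((r : ℂ) + (y : ℂ) * Complex.I)) (𝓝[>] 0) (𝓝 (ms f r)) := by
  obtain ⟨g, h0, h1⟩ := exists_g r
  exact (ms_spec hN hf r g h0 h1).1

/-- at the cusps prime to the level -/
lemma ms_eq_bv (hN : N.Prime) {f : Cf2 N} {ε : ℝ} (hf : W388.IsNewf N 2 f ε) (r : ℚ)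
    (hr : r.den.Coprime N) : ms f r = bv f r :=
  tendsto_nhds_unique (ms_tendsto hN hf r) (bv_tendsto f (newf_fr hf) r hr)

lemma CC_S (hN : N.Prime) {f : Cf2 N} {ε : ℝ} (hf : W388.IsNewf N 2 f ε) :
    CC f ModularGroup.S = bv f 0 := by
  rw [← ms_eq_bv hN hf 0 (by simp)]
  exact (ms_spec hN hf 0 ModularGroup.S (by simp [ModularGroup.S]) (by simp [ModularGroup.S])).2.symm

/-- conjugation -/
lemma ms_conj (hN : N.Prime) {f : Cf2 N} {ε : ℝ} (hf : W388.IsNewf N 2 f ε) (r : ℚ) :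
    (starRingEnd ℂ) (ms f r) = ms f (-r) := by
  have h3 := (Complex.continuous_conj.tendsto _).comp (ms_tendsto hN hf r)
  refine tendsto_nhds_unique h3 ((ms_tendsto hN hf (-r)).congr' ?_)
  filter_upwards [self_mem_nhdsWithin] with y (hy : 0 < y)
  simp only [Function.comp_apply]
  unfold prim
  rw [Complex.conj_tsum]
  refine tsum_congr fun n => ?_
  have e1 : (starRingEnd ℂ) ((qExpansion 1 f).coeff n) = (qExpansion 1 f).coeff n :=
    Complex.conj_eq_iff_im.2 (hf.real n)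
  rw [map_mul, map_div₀, e1, ← Complex.exp_conj]
  simp only [map_mul, map_add, Complex.conj_I, Complex.conj_ofReal, map_natCast, map_ratCast,
    map_ofNat]
  congr 2
  push_cast
  ring

/-- **all forms at once**: the value at `r` is `k bv f 0` plus a period -/
lemma ms_decomp (hN : N.Prime) (r : ℚ) : ∃ (k : ℤ) (δ : Gamma0 N), ∀ (f : Cf2 N) (ε : ℝ),
    W388.IsNewf N 2 f ε → ms f r = (k : ℂ) * bv f 0 + per f δ := by
  obtain ⟨g, h0, h1⟩ := exists_g r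
  obtain ⟨δ, hδ, h⟩ := decomp hN g
  rcases h with h | ⟨j, h⟩
  · refine ⟨0, ⟨δ, hδ⟩, fun f ε hf => ?_⟩
    rw [(ms_spec hN hf r g h0 h1).2, h]
    have h2 := CC_mul_left hN hf ⟨δ, hδ⟩ 1
    rw [mul_one, CC_one] at h2
    rw [h2]
    push_cast
    ring
  · refine ⟨1, ⟨δ, hδ⟩, fun f ε hf => ?_⟩
    rw [(ms_spec hN hf r g h0 h1).2, h, CC_mul_left hN hf ⟨δ, hδ⟩, CC_mul_T hN hf, CC_S hN hf]
    push_cast
    ring

/-- a bound -/
lemma ms_bd (hN : N.Prime) {f : Cf2 N} {ε : ℝ} (hf : W388.IsNewf N 2 f ε) (r : ℚ) :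
    ‖ms f r‖ ≤ (1 + (r.den : ℝ) ^ 2) ^ 2 + (1 + (N : ℝ)) ^ 2 := by
  obtain ⟨g, h0, h1⟩ := exists_g r
  have hc : g 1 0 ≠ 0 := by
    rw [h1]
    exact_mod_cast r.den_nz
  have hden : (0 : ℝ) < r.den := by exact_mod_cast r.den_pos
  have hcR : ((g 1 0 : ℤ) : ℝ) = r.den := by rw [h1]; simp
  set y : ℝ := 1 / ((r.den : ℝ) ^ 2) with hy
  have hy0 : 0 < y := by positivity
  have h2 := act_line g hc y hy0
  have e1 : (((g 0 0 : ℤ) : ℚ) / ((g 1 0 : ℤ) : ℚ) : ℚ) = r := by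
    rw [h0, h1, Int.cast_natCast]
    exact Rat.num_div_den r
  have e2 : (1 : ℝ) / (((g 1 0 : ℤ) : ℝ) ^ 2 * y) = 1 := by
    rw [hcR, hy]
    field_simp
  rw [e1, e2] at h2
  obtain ⟨δ, hδ, hδ2⟩ := gx_cg (N := N) g
  set z : ℂ := ((-((g 1 1 : ℤ) : ℝ) / ((g 1 0 : ℤ) : ℝ) : ℝ) : ℂ) + ((1 : ℝ) : ℂ) * Complex.I with hz
  have hzim : z.im = 1 := by rw [hz]; simp
  have h3 := (cusp1 N hN f ε hf).2.2.2.2 (cg N g) z (by rw [hzim]; norm_num)
  rw [hzim, div_one] at h3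
  have h4 : GG f (cg N g) z = prim f ((r : ℂ) + (y : ℂ) * Complex.I) - ms f r := by
    unfold GG
    rw [hδ2, CC_mul_left hN hf ⟨δ, hδ⟩, mul_smul]
    have h5 := per_spec f ⟨δ, hδ⟩ (g • pt (-((g 1 1 : ℤ) : ℝ) / ((g 1 0 : ℤ) : ℝ)) 1)
    have h6 : (ofComplex z : ℍ) = pt (-((g 1 1 : ℤ) : ℝ) / ((g 1 0 : ℤ) : ℝ)) 1 := rfl
    rw [h6]
    have h7 : (((⟨δ, hδ⟩ : Gamma0 N) : SL(2, ℤ)) • g • pt (-((g 1 1 : ℤ) : ℝ) / ((g 1 0 : ℤ) : ℝ)) 1 : ℍ) =
      (δ • g • pt (-((g 1 1 : ℤ) : ℝ) / ((g 1 0 : ℤ) : ℝ)) 1 : ℍ) := rfl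
    rw [h7] at h5
    rw [h5, h2, (ms_spec hN hf r g h0 h1).2]
    ring
  rw [h4] at h3
  have h8 := prim_bd f (coef N hN f ε hf) ((r : ℂ) + (y : ℂ) * Complex.I) (by
    have : ((r : ℂ) + (y : ℂ) * Complex.I).im = y := by simp
    rw [this]
    exact hy0)
  have h9 : ((r : ℂ) + (y : ℂ) * Complex.I).im = y := by simp
  rw [h9, hy, one_div_one_div] at h8
  have h10 : ms f r = prim f ((r : ℂ) + (y : ℂ) * Complex.I) -
      (prim f ((r : ℂ) + (y : ℂ) * Complex.I) - ms f r) := by ring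
  rw [h10]
  refine (norm_sub_le _ _).trans ?_
  rw [hy] at h3 ⊢
  linarith

/-! ### the lattice is stable under the Hecke operators -/

omit [NeZero N] in
lemma den_div (b d : ℤ) (hdN : IsCoprime d (N : ℤ)) (hd0 : d ≠ 0) :
    ((b : ℚ) / (d : ℚ)).den.Coprime N := by
  rw [den_iff]
  have hnat : d.natAbs.Coprime N := by
    rw [Int.isCoprime_iff_gcd_eq_one] at hdN
    simpa [Int.gcd] using hdN
  have hdq : (d : ℚ) ≠ 0 := by exact_mod_cast hd0
  have h0 : ((d.natAbs : ℕ) : ℚ) = (((d.natAbs : ℕ) : ℤ) : ℚ) := (Int.cast_natCast _).symm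
  rcases Int.natAbs_eq d with h | h
  · refine ⟨d.natAbs, hnat, b, ?_⟩
    have h3 : ((d.natAbs : ℕ) : ℚ) = (d : ℚ) := by
      rw [h0, ← h]
    rw [h3]
    field_simp
  · refine ⟨d.natAbs, hnat, -b, ?_⟩
    have h3 : ((d.natAbs : ℕ) : ℚ) = -(d : ℚ) := by
      have h4 : ((d.natAbs : ℕ) : ℤ) = -d := by omega
      rw [h0, h4]
      push_cast
      ring
    rw [h3]
    push_cast
    field_simp

/-- a period is a difference of two boundary values -/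
lemma per_diff (hN : N.Prime) (γ : Gamma0 N) : ∃ r : ℚ, r.den.Coprime N ∧ ∀ (f : Cf2 N) (ε : ℝ),
    W388.IsNewf N 2 f ε → per f γ = bv f r - bv f 0 := by
  set b : ℤ := (γ : SL(2, ℤ)) 0 1 with hb
  set d : ℤ := (γ : SL(2, ℤ)) 1 1 with hd
  have hdet : (γ : SL(2, ℤ)) 0 0 * d - b * (γ : SL(2, ℤ)) 1 0 = 1 := by
    have h1 := Matrix.SpecialLinearGroup.det_coe (γ : SL(2, ℤ))
    rw [Matrix.det_fin_two] at h1
    exact h1
  have hcN : (N : ℤ) ∣ (γ : SL(2, ℤ)) 1 0 := by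
    have h1 := γ.2
    rw [Gamma0_mem] at h1
    rwa [ZMod.intCast_zmod_eq_zero_iff_dvd] at h1
  have hdN : IsCoprime d (N : ℤ) := by
    obtain ⟨k, hk⟩ := hcN
    refine ⟨(γ : SL(2, ℤ)) 0 0, -(b * k), ?_⟩
    rw [hk] at hdet
    linarith
  have hd0 : d ≠ 0 := by
    intro h
    rw [h] at hdN
    have := isCoprime_zero_left.1 hdN
    rw [Int.isUnit_iff] at this
    have h2 := hN.two_le
    omega
  have hS0 : ((γ : SL(2, ℤ)) * ModularGroup.S) 0 0 = b := by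
    rw [Matrix.SpecialLinearGroup.coe_mul, Matrix.mul_apply, Fin.sum_univ_two]
    simp [ModularGroup.S, hb]
  have hS1 : ((γ : SL(2, ℤ)) * ModularGroup.S) 1 0 = d := by
    rw [Matrix.SpecialLinearGroup.coe_mul, Matrix.mul_apply, Fin.sum_univ_two]
    simp [ModularGroup.S, hd]
  refine ⟨(b : ℚ) / (d : ℚ), ?_, fun f ε hf => ?_⟩
  · exact den_div b d hdN hd0
  · have h1 := CC_mul_left hN hf γ ModularGroup.S
    obtain ⟨v, hv⟩ := exists_HasV hN hf ((γ : SL(2, ℤ)) * ModularGroup.S)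
    have h2 := HasV.tendsto hv (by rw [hS1]; exact hd0)
    rw [hS0, hS1] at h2
    have hden : ((b : ℚ) / (d : ℚ)).den.Coprime N := den_div b d hdN hd0
    have h3 := tendsto_nhds_unique (bv_tendsto f (newf_fr hf) _ hden) h2
    rw [h3, ← hv.CC_eq, h1, CC_S hN hf]
    ring

/-- the values of an integral combination of rational numbers -/
noncomputable def SS (f : Cf2 N) (m : ℚ →₀ ℤ) : ℂ := m.sum fun r k => (k : ℂ) * ms f r

lemma SS_decomp (hN : N.Prime) (m : ℚ →₀ ℤ) : ∃ (k : ℤ) (δ : Gamma0 N), ∀ (f : Cf2 N) (ε : ℝ),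
    W388.IsNewf N 2 f ε → SS f m = (k : ℂ) * bv f 0 + per f δ := by
  induction m using Finsupp.induction_linear with
  | zero =>
    refine ⟨0, 1, fun f ε hf => ?_⟩
    have : per f (1 : Gamma0 N) = 0 := (perHom f).map_zero
    unfold SS
    rw [this]
    simp
  | add m m' h h' =>
    obtain ⟨k, δ, h⟩ := h
    obtain ⟨k', δ', h'⟩ := h'
    refine ⟨k + k', δ * δ', fun f ε hf => ?_⟩
    have e : SS f (m + m') = SS f m + SS f m' := by
      unfold SS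
      exact Finsupp.sum_add_index' (fun r => by simp) (fun r a b => by push_cast; ring)
    rw [e, h f ε hf, h' f ε hf, per_mul]
    push_cast
    ring
  | single r a =>
    obtain ⟨k, δ, h⟩ := ms_decomp hN r
    refine ⟨a * k, δ ^ a, fun f ε hf => ?_⟩
    have e : SS f (Finsupp.single r a) = (a : ℂ) * ms f r := by
      unfold SS
      rw [Finsupp.sum_single_index (by simp)]
    have e2 : per f (δ ^ a) = (a : ℂ) * per f δ := by
      have := map_zsmul (perHom f) a (Additive.ofMul δ)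
      rw [zsmul_eq_mul] at this
      exact this
    rw [e, h f ε hf, e2]
    push_cast
    ring

/-- **the Hecke translates are in the lattice** -/
theorem SS_mem (hN : N.Prime) (h2 : N ≠ 2) {B : Finset (Cf2 N)} (sg : B → ℝ)
    (hsg : ∀ f : B, W388.IsNewf N 2 f.1 (sg f)) (t : B → ℝ) (ht : t ∈ TT sg) (m : ℚ →₀ ℤ) :
    (fun f : B => (t f : ℂ) * ((co f.1 2 - 3) * SS f.1 m)) ∈ LL B := by
  have hBn : ∀ f ∈ B, ∃ ε : ℝ, W388.IsNewf N 2 f ε := fun f hf => ⟨_, hsg ⟨f, hf⟩⟩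
  have h2N : ¬ 2 ∣ N := fun h => h2 ((Nat.prime_dvd_prime_iff_eq Nat.prime_two hN).1 h).symm
  -- the winding element
  have hwind : (fun f : B => (t f : ℂ) * ((co f.1 2 - 3) * bv f.1 0)) ∈ LL B := by
    obtain ⟨n, hn1, hn2, rfl | rfl⟩ := ht
    · refine (congrArg (· ∈ LL B) ?_).mp (winding hBn h2N n hn2)
      funext f
      rw [← co_real (hsg f) n]
    · refine (congrArg (· ∈ LL B) ?_).mp (LL_sign sg hsg (winding hBn h2N n hn2))
      funext f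
      rw [Complex.ofReal_mul, ← co_real (hsg f) n]
      ring
  -- the differences
  have hdiff : ∀ r r' : ℚ, r.den.Coprime N → r'.den.Coprime N →
      (fun f : B => (t f : ℂ) * ((co f.1 2 - 3) * (bv f.1 r - bv f.1 r'))) ∈ LL B := by
    intro r r' hr hr'
    have hP2 := PPm.prime hBn (PP_one hBn) Nat.prime_two h2N
    obtain ⟨n, hn1, hn2, hn⟩ := ht
    have k1 := PPm.all hBn n hn2 _ hP2 r r' hr hr'
    have k2 := PPm.all hBn n hn2 1 (PP_one hBn) r r' hr hr'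
    have k3 := (LL B).sub_mem k1 ((LL B).add_mem ((LL B).add_mem k2 k2) k2)
    rcases hn with rfl | rfl
    · refine (congrArg (· ∈ LL B) ?_).mp k3
      funext f
      simp only [Pi.sub_apply, Pi.add_apply, Pi.one_apply, mul_one]
      rw [← co_real (hsg f) n]
      push_cast
      ring
    · refine (congrArg (· ∈ LL B) ?_).mp (LL_sign sg hsg k3)
      funext f
      simp only [Pi.sub_apply, Pi.add_apply, Pi.one_apply, mul_one]
      rw [Complex.ofReal_mul, ← co_real (hsg f) n]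
      push_cast
      ring
  obtain ⟨k, δ, hk⟩ := SS_decomp hN m
  obtain ⟨r, hr, hr2⟩ := per_diff hN δ
  refine (congrArg (· ∈ LL B) ?_).mp
    ((LL B).add_mem ((LL B).zsmul_mem hwind k) (hdiff r 0 hr (by simp)))
  funext f
  rw [Pi.add_apply, Pi.smul_apply, zsmul_eq_mul, hk f.1 _ (hsg f), hr2 f.1 _ (hsg f)]
  ring

/-- reflection -/
noncomputable def rfl' (m : ℚ →₀ ℤ) : ℚ →₀ ℤ := m.mapDomain (fun r => -r)

lemma SS_conj (hN : N.Prime) {f : Cf2 N} {ε : ℝ} (hf : W388.IsNewf N 2 f ε) (m : ℚ →₀ ℤ) :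
    (starRingEnd ℂ) (SS f m) = SS f (rfl' m) := by
  unfold SS rfl'
  rw [Finsupp.sum_mapDomain_index (fun r => by simp) (fun r a b => by push_cast; ring), Finsupp.sum,
    map_sum, Finsupp.sum]
  refine Finset.sum_congr rfl fun r _ => ?_
  rw [map_mul, ms_conj hN hf, map_intCast]

lemma SS_add (f : Cf2 N) (m m' : ℚ →₀ ℤ) : SS f (m + m') = SS f m + SS f m' := by
  unfold SS
  exact Finsupp.sum_add_index' (fun r => by simp) (fun r a b => by push_cast; ring)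

lemma SS_sub (f : Cf2 N) (m m' : ℚ →₀ ℤ) : SS f (m - m') = SS f m - SS f m' := by
  unfold SS
  exact Finsupp.sum_sub_index (fun r a b => by push_cast; ring)

end Pool.Agent.L5helper21.MS
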