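import Pool.Agent.L5helper40.AF.M4
import Pool.Agent.L5helper21.MS.Ms

/-!
# The product of the nonzero values of an integral combination of modular symbols
-/

set_option autoImplicit false

open Complex Filter Topology Set UpperHalfPlane MatrixGroups CongruenceSubgroup ZMod

namespace Pool.Agent.L5helper21.MS

open Pool.Agent.TH940 (prim prim_deriv Fr prim_fricke mellin2)
open Pool.Agent.Y18.BSD
open Pool.Agent.K4H13.CV
open Pool.Agent.L5helper40.AF
open W388.LV (SF bf pet IsNewBasis)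

variable {N : ℕ} [NeZero N]

open Classical in
/-- combinations whose values are real, or whose values are purely imaginary -/
theorem core (hN : N.Prime) (h2 : N ≠ 2) {B : Finset (Cf2 N)} (hB : IsNewBasis N 2 B) (m : ℚ →₀ ℤ)
    (θ : ℂ) (hθ : ‖θ‖ = 1) (hm : ∀ f ∈ B, SS f m = θ * (starRingEnd ℂ) (SS f m)) :
    1 / (N : ℝ) ^ (330 * B.card) ≤ ∏ f ∈ B with SS f m ≠ 0, ‖SS f m‖ := by
  rcases Nat.eq_zero_or_pos B.card with h0 | hg
  · have he : B = ∅ := Finset.card_eq_zero.1 h0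
    rw [h0, mul_zero, pow_zero, he, Finset.filter_empty, Finset.prod_empty]
    norm_num
  have hN3 := three_le hN h2
  have hN0 : (0 : ℝ) < N := by linarith
  have hN1 : (1 : ℝ) ≤ N := by linarith
  obtain ⟨δ, hδ1, hδ2⟩ := gen N hN
  choose sg0 hsg0 using hB.newf
  set sg : B → ℝ := fun f => sg0 f.1 f.2 with hsgdef
  have hsg : ∀ f : B, W388.IsNewf N 2 f.1 (sg f) := fun f => hsg0 f.1 f.2
  have h4 : (1 : ℝ) ≤ (N : ℝ) ^ 4 := one_le_pow₀ hN1
  have hco3 : ∀ f : B, co f.1 2 - 3 ≠ 0 := by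
    intro f h
    exact two red N hN h2 f.1 (sg f) (hsg f) (sub_eq_zero.1 h)
  have hcoR : ∀ f : B, (starRingEnd ℂ) (co f.1 2 - 3) = co f.1 2 - 3 := by
    intro f
    rw [map_sub, co_real (hsg f) 2, Complex.conj_ofReal]
    congr 1
    exact map_ofNat _ 3
  haveI : NeZero (1 : ℕ) := ⟨one_ne_zero⟩
  have key := main_ineq (q := 1) (⊥ : Subgroup (DirichletCharacter ℂ 1)) (LL B)
    (1 / (N : ℝ) ^ (296 * B.card)) (by positivity)
    (fun v hv hd => kappa hyp hN h2 hB hg v hv hd) (fun i => pv B (δ i)) (fun i => pv_mem B _)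
    (10 ^ 4 * (N : ℝ) ^ 4) (by linarith)
    (fun i f => by
      have e1 := per_bd f.1 (coef N hN f.1 (sg f) (hsg f)) (δ i) ((N : ℝ) ^ 2) (one_le_pow₀ hN1)
        (by
          have := hδ1 i
          rw [← Int.cast_abs]
          exact_mod_cast this)
      refine e1.trans ?_
      calc 8 * ((N : ℝ) ^ 2) ^ 2 = 8 * (N : ℝ) ^ 4 := by ring
        _ ≤ _ := by linarith)
    (span_short hyp hN h2 hB δ hδ2) (TT sg)
    (fun t ht f => by
      obtain ⟨n, hn1, hn2, h⟩ := ht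
      have h5 : |(co f.1 n).re| ≤ 10 ^ 4 * (N : ℝ) ^ 4 := by
        refine (Complex.abs_re_le_norm _).trans ((coef N hN f.1 (sg f) (hsg f) n).trans ?_)
        have e1 : ((n : ℕ) : ℝ) ≤ 100 * (N : ℝ) ^ 2 := by exact_mod_cast hn1
        calc ((n : ℕ) : ℝ) ^ 2 ≤ (100 * (N : ℝ) ^ 2) ^ 2 := by gcongr
          _ = _ := by ring
      rcases h with rfl | rfl
      · exact h5
      · rcases (hsg f).sign with h6 | h6
        · simp only [h6, one_mul]
          exact h5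
        · simp only [h6, neg_mul, one_mul, abs_neg]
          exact h5)
    (indepT hN hB sg hsg) (fun _ f => (co f.1 2 - 3) * SS f.1 m)
    (fun _ => θ) (fun _ => hθ)
    (fun χ f => by
      show (co f.1 2 - 3) * SS f.1 m = θ * (starRingEnd ℂ) ((co f.1 2 - 3) * SS f.1 m)
      rw [map_mul, hcoR]
      have h5 := hm f.1 f.2
      calc (co f.1 2 - 3) * SS f.1 m = (co f.1 2 - 3) * (θ * (starRingEnd ℂ) (SS f.1 m)) := by rw [← h5]
        _ = _ := by ring)
    (fun t ht g => by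
      refine (congrArg (· ∈ LL B) ?_).mp (SS_mem hN h2 sg hsg t ht m)
      funext f
      rw [Fintype.sum_unique]
      have e1 : (default : (⊥ : Subgroup (DirichletCharacter ℂ 1))).1 = 1 :=
        Subgroup.mem_bot.1 (default : (⊥ : Subgroup (DirichletCharacter ℂ 1))).2
      rw [e1, one_unit, one_mul])
  -- numerics
  have hcard : Fintype.card (B × (⊥ : Subgroup (DirichletCharacter ℂ 1))) = B.card := by
    rw [Fintype.card_prod, Fintype.card_coe, Fintype.card_unique, mul_one]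
  rw [hcard, Fintype.card_unique, pow_one] at key
  have hc := card_le hyp hN h2 hB
  have s1 := (dimS hyp hN h2 hB).1
  rw [s1] at hc
  have k1 : ((2 * B.card : ℕ) : ℝ) ^ (4 * B.card) ≤ (N : ℝ) ^ (4 * B.card) := by
    have : ((2 * B.card : ℕ) : ℝ) ≤ (N : ℝ) := by
      have h5 : 2 * B.card ≤ N := by omega
      exact_mod_cast h5
    gcongr
  have k2 : (2 * (10 ^ 4 * (N : ℝ) ^ 4)) ^ (2 * B.card) ≤ (N : ℝ) ^ (28 * B.card) := by
    have h5 : (2 * 10 ^ 4 : ℝ) ≤ (N : ℝ) ^ 10 := by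
      calc (2 * 10 ^ 4 : ℝ) ≤ 3 ^ 10 := by norm_num
        _ ≤ (N : ℝ) ^ 10 := by gcongr
    calc (2 * (10 ^ 4 * (N : ℝ) ^ 4)) ^ (2 * B.card) = ((2 * 10 ^ 4) * (N : ℝ) ^ 4) ^ (2 * B.card) := by
          ring
      _ ≤ ((N : ℝ) ^ 10 * (N : ℝ) ^ 4) ^ (2 * B.card) := by gcongr
      _ = (N : ℝ) ^ (28 * B.card) := by
          rw [← pow_add, ← pow_mul]
          congr 1
          ring
  have k3 : ∏ p : B × (⊥ : Subgroup (DirichletCharacter ℂ 1)) with (co p.1.1 2 - 3) * SS p.1.1 m ≠ 0,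
      ‖((1 : ℕ).totient : ℂ) * ((co p.1.1 2 - 3) * SS p.1.1 m)‖ ≤
      (N : ℝ) ^ (2 * B.card) * ∏ f ∈ B with SS f m ≠ 0, ‖SS f m‖ := by
    have e1 : ∏ p : B × (⊥ : Subgroup (DirichletCharacter ℂ 1)) with
        (co p.1.1 2 - 3) * SS p.1.1 m ≠ 0, ‖((1 : ℕ).totient : ℂ) * ((co p.1.1 2 - 3) * SS p.1.1 m)‖ =
        ∏ f ∈ B, (if (co f 2 - 3) * SS f m ≠ 0 then ‖(co f 2 - 3) * SS f m‖ else 1) := by
      rw [Finset.prod_filter, Fintype.prod_prod_type,
        ← Finset.prod_coe_sort B (fun f => if (co f 2 - 3) * SS f m ≠ 0 then ‖(co f 2 - 3) * SS f m‖ else 1)]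
      refine Finset.prod_congr rfl fun f _ => ?_
      rw [Fintype.prod_unique]
      simp
    rw [e1, Finset.prod_filter]
    have h5 : ∀ f ∈ B, (if (co f 2 - 3) * SS f m ≠ 0 then ‖(co f 2 - 3) * SS f m‖ else 1) ≤
        (N : ℝ) ^ 2 * (if SS f m ≠ 0 then ‖SS f m‖ else 1) := by
      intro f hf
      have h6 := hco3 ⟨f, hf⟩
      by_cases h7 : SS f m = 0
      · rw [if_neg (by rw [h7]; simp), if_neg (by simpa using h7), mul_one]
        exact one_le_pow₀ hN1
      · rw [if_pos (mul_ne_zero h6 h7), if_pos h7, norm_mul]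
        refine mul_le_mul_of_nonneg_right ?_ (norm_nonneg _)
        have h8 := coef N hN f _ (hsg ⟨f, hf⟩) 2
        have h9 : ‖co f 2 - 3‖ ≤ ‖co f 2‖ + ‖(3 : ℂ)‖ := norm_sub_le _ _
        have h10 : ‖(3 : ℂ)‖ = 3 := by norm_num
        have h11 : ‖co f 2‖ ≤ ((2 : ℕ) : ℝ) ^ 2 := h8
        push_cast at h11
        nlinarith
    refine (Finset.prod_le_prod (fun f _ => by split_ifs <;> positivity) h5).trans ?_
    rw [Finset.prod_mul_distrib, Finset.prod_const, ← pow_mul]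
  have hP0 : 0 ≤ ∏ f ∈ B with SS f m ≠ 0, ‖SS f m‖ := Finset.prod_nonneg fun p _ => norm_nonneg _
  have k4 : 1 / (N : ℝ) ^ (296 * B.card) ≤ (N : ℝ) ^ (34 * B.card) *
      ∏ f ∈ B with SS f m ≠ 0, ‖SS f m‖ := by
    refine key.trans ?_
    calc _ ≤ (N : ℝ) ^ (4 * B.card) * (N : ℝ) ^ (28 * B.card) *
          ((N : ℝ) ^ (2 * B.card) * ∏ f ∈ B with SS f m ≠ 0, ‖SS f m‖) := by
          refine mul_le_mul (mul_le_mul k1 k2 (by positivity) (by positivity)) k3
            (Finset.prod_nonneg fun p _ => norm_nonneg _) (by positivity)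
      _ = _ := by
          rw [← mul_assoc, ← pow_add, ← pow_add]
          congr 2
          ring
  rw [div_le_iff₀ (by positivity)] at k4 ⊢
  calc (1 : ℝ) ≤ _ := k4
    _ = (∏ f ∈ B with SS f m ≠ 0, ‖SS f m‖) *
        ((N : ℝ) ^ (34 * B.card) * (N : ℝ) ^ (296 * B.card)) := by ring
    _ = _ := by
        rw [← pow_add]
        congr 2
        ring

open Classical in
theorem re_prod (hN : N.Prime) (h2 : N ≠ 2) {B : Finset (Cf2 N)} (hB : IsNewBasis N 2 B)
    (m : ℚ →₀ ℤ) : 1 / (N : ℝ) ^ (331 * B.card) ≤ ∏ f ∈ B with |(SS f m).re| ≠ 0, |(SS f m).re| := by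
  have hN3 := three_le hN h2
  have hN0 : (0 : ℝ) < N := by linarith
  have hN1 : (1 : ℝ) ≤ N := by linarith
  have e0 : ∀ f ∈ B, SS f (m + rfl' m) = ((2 * (SS f m).re : ℝ) : ℂ) := by
    intro f hf
    obtain ⟨ε, hε⟩ := hB.newf f hf
    rw [SS_add, ← SS_conj hN hε]
    exact Complex.add_conj _
  have h1 := core hN h2 hB (m + rfl' m) 1 (by simp) (fun f hf => by
    rw [e0 f hf, Complex.conj_ofReal, one_mul])
  have h3 : ∏ f ∈ B with SS f (m + rfl' m) ≠ 0, ‖SS f (m + rfl' m)‖ ≤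
      (N : ℝ) ^ B.card * ∏ f ∈ B with |(SS f m).re| ≠ 0, |(SS f m).re| := by
    rw [Finset.prod_filter, Finset.prod_filter]
    have h5 : ∀ f ∈ B, (if SS f (m + rfl' m) ≠ 0 then ‖SS f (m + rfl' m)‖ else 1) ≤
        (N : ℝ) * (if |(SS f m).re| ≠ 0 then |(SS f m).re| else 1) := by
      intro f hf
      rw [e0 f hf, Complex.norm_real, Real.norm_eq_abs, abs_mul, abs_two]
      by_cases h7 : (SS f m).re = 0
      · rw [if_neg (by rw [h7]; simp), if_neg (by simpa using h7), mul_one]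
        exact hN1
      · rw [if_pos (by
          intro h
          have h8 : 2 * (SS f m).re = 0 := by exact_mod_cast h
          exact h7 (by linarith)), if_pos (by simpa using h7)]
        refine mul_le_mul_of_nonneg_right ?_ (abs_nonneg _)
        linarith
    refine (Finset.prod_le_prod (fun f _ => by split_ifs <;> positivity) h5).trans ?_
    rw [Finset.prod_mul_distrib, Finset.prod_const]
  have h4 := h1.trans h3
  rw [div_le_iff₀ (by positivity)] at h4 ⊢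
  calc (1 : ℝ) ≤ _ := h4
    _ = _ := by
      rw [show 331 * B.card = B.card + 330 * B.card by ring, pow_add]
      ring

open Classical in
theorem im_prod (hN : N.Prime) (h2 : N ≠ 2) {B : Finset (Cf2 N)} (hB : IsNewBasis N 2 B)
    (m : ℚ →₀ ℤ) : 1 / (N : ℝ) ^ (331 * B.card) ≤ ∏ f ∈ B with |(SS f m).im| ≠ 0, |(SS f m).im| := by
  have hN3 := three_le hN h2
  have hN0 : (0 : ℝ) < N := by linarith
  have hN1 : (1 : ℝ) ≤ N := by linarith
  have e0 : ∀ f ∈ B, SS f (m - rfl' m) = ((2 * (SS f m).im : ℝ) : ℂ) * Complex.I := by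
    intro f hf
    obtain ⟨ε, hε⟩ := hB.newf f hf
    rw [SS_sub, ← SS_conj hN hε]
    exact Complex.sub_conj _
  have h1 := core hN h2 hB (m - rfl' m) (-1) (by simp) (fun f hf => by
    rw [e0 f hf, map_mul, Complex.conj_ofReal, Complex.conj_I]
    ring)
  have h3 : ∏ f ∈ B with SS f (m - rfl' m) ≠ 0, ‖SS f (m - rfl' m)‖ ≤
      (N : ℝ) ^ B.card * ∏ f ∈ B with |(SS f m).im| ≠ 0, |(SS f m).im| := by
    rw [Finset.prod_filter, Finset.prod_filter]
    have h5 : ∀ f ∈ B, (if SS f (m - rfl' m) ≠ 0 then ‖SS f (m - rfl' m)‖ else 1) ≤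
        (N : ℝ) * (if |(SS f m).im| ≠ 0 then |(SS f m).im| else 1) := by
      intro f hf
      rw [e0 f hf, norm_mul, Complex.norm_I, mul_one, Complex.norm_real, Real.norm_eq_abs, abs_mul,
        abs_two]
      by_cases h7 : (SS f m).im = 0
      · rw [if_neg (by rw [h7]; simp), if_neg (by simpa using h7), mul_one]
        exact hN1
      · rw [if_pos (by
          intro h
          rcases mul_eq_zero.1 h with h9 | h9
          · have h8 : 2 * (SS f m).im = 0 := by exact_mod_cast h9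
            exact h7 (by linarith)
          · exact Complex.I_ne_zero h9), if_pos (by simpa using h7)]
        refine mul_le_mul_of_nonneg_right ?_ (abs_nonneg _)
        linarith
    refine (Finset.prod_le_prod (fun f _ => by split_ifs <;> positivity) h5).trans ?_
    rw [Finset.prod_mul_distrib, Finset.prod_const]
  have h4 := h1.trans h3
  rw [div_le_iff₀ (by positivity)] at h4 ⊢
  calc (1 : ℝ) ≤ _ := h4
    _ = _ := by
      rw [show 331 * B.card = B.card + 330 * B.card by ring, pow_add]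
      ring

/-- the size of a combination -/
def siz (m : ℚ →₀ ℤ) : ℕ := m.sum fun r k => k.natAbs * r.den

/-- an upper bound -/
theorem SS_bd (hN : N.Prime) (h3 : 3 ≤ N) {f : Cf2 N} {ε : ℝ} (hf : W388.IsNewf N 2 f ε)
    (m : ℚ →₀ ℤ) : ‖SS f m‖ ≤ ((N : ℝ) * (max 1 (siz m) : ℕ)) ^ 4 := by
  have hN3 : (3 : ℝ) ≤ N := by exact_mod_cast h3
  have h1 : ‖SS f m‖ ≤ ∑ r ∈ m.support, ((m r).natAbs * r.den : ℕ) ^ 4 * (N : ℝ) ^ 4 := by
    unfold SS
    rw [Finsupp.sum]
    refine (norm_sum_le _ _).trans (Finset.sum_le_sum fun r hr => ?_)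
    rw [norm_mul]
    have e1 : ‖((m r : ℤ) : ℂ)‖ = ((m r).natAbs : ℝ) := by
      rw [Complex.norm_intCast, Nat.cast_natAbs, Int.cast_abs]
    have hd1 : (1 : ℝ) ≤ r.den := by exact_mod_cast r.den_pos
    have hk1 : (1 : ℝ) ≤ ((m r).natAbs : ℝ) := by
      have : 1 ≤ (m r).natAbs := Int.natAbs_pos.2 (Finsupp.mem_support_iff.1 hr)
      exact_mod_cast this
    rw [e1]
    have e2 := ms_bd hN hf r
    have e3 : (1 + (r.den : ℝ) ^ 2) ^ 2 + (1 + (N : ℝ)) ^ 2 ≤ (r.den : ℝ) ^ 4 * (N : ℝ) ^ 4 := by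
      have a1 : (1 : ℝ) ≤ (r.den : ℝ) ^ 2 := one_le_pow₀ hd1
      have a2 : (1 + (r.den : ℝ) ^ 2) ^ 2 ≤ 4 * (r.den : ℝ) ^ 4 := by nlinarith
      have a3 : (1 + (N : ℝ)) ^ 2 ≤ 2 * (N : ℝ) ^ 2 := by nlinarith
      have a4 : (9 : ℝ) ≤ (N : ℝ) ^ 2 := by nlinarith
      have a5 : (1 : ℝ) ≤ (r.den : ℝ) ^ 4 := one_le_pow₀ hd1
      have a6 : 2 * (N : ℝ) ^ 2 ≤ 2 * (N : ℝ) ^ 2 * (r.den : ℝ) ^ 4 :=
        le_mul_of_one_le_right (by positivity) a5
      have a7 : 4 + 2 * (N : ℝ) ^ 2 ≤ (N : ℝ) ^ 4 := by nlinarith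
      calc _ ≤ 4 * (r.den : ℝ) ^ 4 + 2 * (N : ℝ) ^ 2 * (r.den : ℝ) ^ 4 := by linarith
        _ = (r.den : ℝ) ^ 4 * (4 + 2 * (N : ℝ) ^ 2) := by ring
        _ ≤ _ := mul_le_mul_of_nonneg_left a7 (by positivity)
    have e4 : ((m r).natAbs : ℝ) ≤ ((m r).natAbs : ℝ) ^ 4 := by
      calc ((m r).natAbs : ℝ) = ((m r).natAbs : ℝ) ^ 1 := (pow_one _).symm
        _ ≤ _ := pow_le_pow_right₀ hk1 (by norm_num)
    calc ((m r).natAbs : ℝ) * ‖ms f r‖ ≤ ((m r).natAbs : ℝ) ^ 4 * ((r.den : ℝ) ^ 4 * (N : ℝ) ^ 4) :=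
          mul_le_mul e4 (e2.trans e3) (norm_nonneg _) (by positivity)
      _ = _ := by push_cast; ring
  have h4 : ∑ r ∈ m.support, ((m r).natAbs * r.den) ^ 4 ≤ (siz m) ^ 4 := by
    have : ∀ s : Finset ℚ, ∑ r ∈ s, ((m r).natAbs * r.den) ^ 4 ≤ (∑ r ∈ s, (m r).natAbs * r.den) ^ 4 := by
      intro s
      induction s using Finset.induction_on with
      | empty => simp
      | insert a s ha ih =>
        rw [Finset.sum_insert ha, Finset.sum_insert ha]
        refine (Nat.add_le_add_left ih _).trans ?_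
        generalize (m a).natAbs * a.den = u
        generalize ∑ r ∈ s, (m r).natAbs * r.den = v
        have : (u + v) ^ 4 = u ^ 4 + v ^ 4 + (4 * u ^ 3 * v + 6 * u ^ 2 * v ^ 2 + 4 * u * v ^ 3) := by ring
        omega
    exact this m.support
  have h5 : (∑ r ∈ m.support, (((m r).natAbs * r.den : ℕ) : ℝ) ^ 4 * (N : ℝ) ^ 4) ≤
      (siz m : ℝ) ^ 4 * (N : ℝ) ^ 4 := by
    rw [← Finset.sum_mul]
    refine mul_le_mul_of_nonneg_right ?_ (by positivity)
    exact_mod_cast h4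
  refine (h1.trans h5).trans ?_
  rw [mul_pow, mul_comm]
  refine mul_le_mul_of_nonneg_left ?_ (by positivity)
  refine pow_le_pow_left₀ (Nat.cast_nonneg _) ?_ 4
  exact_mod_cast le_max_right 1 (siz m)

end Pool.Agent.L5helper21.MS
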