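import Pool.Agent.H385R2.Gauss
import Pool.Agent.L5helper21.MS.Prod

/-!
# The central values of the quadratic twists as values of integral combinations of modular symbols
-/

set_option autoImplicit false

open Complex Filter Topology Set UpperHalfPlane MatrixGroups CongruenceSubgroup ZMod

namespace Pool.Agent.L5helper21.MS

open Pool.Agent.TH940 (prim prim_deriv Fr prim_fricke mellin2)
open Pool.Agent.Y18.BSD
open Pool.Agent.K4H13.CV
open Pool.Agent.L5helper40.AF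
open W388.LV (SF bf pet IsNewBasis)

variable {N : ℕ} [NeZero N]

lemma SS_zero (f : Cf2 N) : SS f 0 = 0 := by
  unfold SS
  exact Finsupp.sum_zero_index

lemma SS_finsum (f : Cf2 N) {ι : Type*} (s : Finset ι) (g : ι → ℚ →₀ ℤ) :
    SS f (∑ i ∈ s, g i) = ∑ i ∈ s, SS f (g i) := by
  classical
  induction s using Finset.induction_on with
  | empty => simp [SS_zero]
  | insert a s ha ih => rw [Finset.sum_insert ha, Finset.sum_insert ha, SS_add, ih]

lemma SS_single (f : Cf2 N) (r : ℚ) (a : ℤ) : SS f (Finsupp.single r a) = (a : ℂ) * ms f r := by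
  unfold SS
  rw [Finsupp.sum_single_index (by simp)]

/-- **quadratic twists** -/
theorem quad (hN : N.Prime) (q : ℕ) [NeZero q] (hqN : q.Coprime N) (χ : DirichletCharacter ℂ q)
    (hχ : χ.IsPrimitive) (hq : χ.IsQuadratic) : ∃ (m : ℚ →₀ ℤ) (θ : ℂ), ‖θ‖ = 1 ∧
    ∀ (f : Cf2 N) (ε : ℝ), W388.IsNewf N 2 f ε → SS f m = θ * (starRingEnd ℂ) (SS f m) ∧
      ∃ L : ℂ → ℂ, Differentiable ℂ L ∧
      (∀ s : ℂ, 4 < s.re → L s = ∑' n : ℕ, χ (n : ZMod q) * (W388.lamf f n : ℂ) * (n : ℂ) ^ (-s)) ∧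
      ‖SS f m‖ = Real.sqrt q * ‖L (1 / 2)‖ := by
  classical
  have hq0 : (q : ℚ) ≠ 0 := by exact_mod_cast NeZero.ne q
  have hval : ∀ u : (ZMod q)ˣ, χ (u : ZMod q) = 1 ∨ χ (u : ZMod q) = -1 := by
    intro u
    rcases hq (u : ZMod q) with h | h | h
    · exfalso
      exact chi_ne χ u h
    · exact Or.inl h
    · exact Or.inr h
  obtain ⟨c, hc⟩ : ∃ c : (ZMod q)ˣ → ℤ, ∀ u, ((c u : ℤ) : ℂ) = χ (u : ZMod q) := by
    refine ⟨fun u => if χ (u : ZMod q) = 1 then 1 else -1, fun u => ?_⟩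
    show (((if χ (u : ZMod q) = 1 then 1 else -1 : ℤ) : ℤ) : ℂ) = χ (u : ZMod q)
    rcases hval u with h | h
    · rw [if_pos h, h]; simp
    · have h1 : ¬ (χ (u : ZMod q) = 1) := by rw [h]; norm_num
      rw [if_neg h1, h]; simp
  have hinv : χ⁻¹ = χ := hq.inv
  have hden : ∀ u : (ZMod q)ˣ, ((((u : ZMod q).val : ℕ) : ℚ) / (q : ℚ)).den.Coprime N := by
    intro u
    have := den_ok hqN (dvd_refl q) ((u : ZMod q).val : ℤ)
    rwa [Int.cast_natCast] at this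
  set m : ℚ →₀ ℤ := ∑ u : (ZMod q)ˣ, Finsupp.single ((((u : ZMod q).val : ℕ) : ℚ) / (q : ℚ)) (c u)
    with hm
  refine ⟨m, χ ((-1 : (ZMod q)ˣ) : ZMod q), chi_norm _ _, fun f ε hf => ?_⟩
  have hS : SS f m = ∑ u : (ZMod q)ˣ, χ (u : ZMod q) *
      bv f ((((u : ZMod q).val : ℕ) : ℚ) / (q : ℚ)) := by
    rw [hm, SS_finsum]
    refine Finset.sum_congr rfl fun u _ => ?_
    rw [SS_single, hc, ms_eq_bv hN hf _ (hden u)]
  have hconj : (starRingEnd ℂ) (SS f m) = χ ((-1 : (ZMod q)ˣ) : ZMod q) * SS f m := by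
    rw [hS, map_sum, Finset.mul_sum, ← Equiv.sum_comp (Equiv.neg (ZMod q)ˣ)]
    refine Finset.sum_congr rfl fun u _ => ?_
    have e0 : (starRingEnd ℂ) (χ (((Equiv.neg (ZMod q)ˣ) u : (ZMod q)ˣ) : ZMod q)) =
        χ (((Equiv.neg (ZMod q)ˣ) u : (ZMod q)ˣ) : ZMod q) := by
      rcases hval ((Equiv.neg (ZMod q)ˣ) u) with h | h <;> rw [h] <;> simp
    have e2 : χ ((-1 : (ZMod q)ˣ) : ZMod q) * χ u = χ (((Equiv.neg (ZMod q)ˣ) u : (ZMod q)ˣ) : ZMod q) := by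
      rw [← chi_mul]
      congr 1
      simp
    rw [map_mul, e0, ← mul_assoc, e2, bv_conj hf _ (hden _)]
    congr 1
    have e4 := bv_congr f (NeZero.ne q) (a := -(((((Equiv.neg (ZMod q)ˣ) u : (ZMod q)ˣ) : ZMod q)).val : ℤ))
      (b := ((u : ZMod q).val : ℤ)) (by
        rw [← ZMod.intCast_zmod_eq_zero_iff_dvd]
        push_cast
        rw [ZMod.natCast_zmod_val, ZMod.natCast_zmod_val]
        simp)
    push_cast at e4
    rw [← e4]
    congr 1
    ring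
  have hsq : χ ((-1 : (ZMod q)ˣ) : ZMod q) * χ ((-1 : (ZMod q)ˣ) : ZMod q) = 1 := by
    rcases hval (-1) with h | h <;> rw [h] <;> norm_num
  refine ⟨by rw [hconj, ← mul_assoc, hsq, one_mul], ?_⟩
  obtain ⟨K, hK0, hK⟩ := exists_tw
  obtain ⟨L, hL1, hL2, hL3, -⟩ := hK N hN f ε hf q χ hχ hqN
  refine ⟨L, hL1, hL2, ?_⟩
  rw [hinv] at hL3
  rw [hS, ← hL3, norm_mul]
  congr 1
  have h1 := H385.GaussAux.norm_sq_gaussSum hχ
  rw [← h1, Real.sqrt_sq (norm_nonneg _)]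

end Pool.Agent.L5helper21.MS
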